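import Pool.Agent.Work.MP_8b6acb_ti_helper76.SetAsm

/-!
# The level lemma with the exact vertex form (helper25)

`v1` is the level value with the exact form `p (l - K - o) + o` on the paths whose `V_K` is a
vertex (for the case without lights at the top).
-/

namespace R5

namespace Two

open Finset T7

variable {α : Type} [DecidableEq α]

/-- the value of a level, exact form on the paths with a vertex at `V_K` -/
noncomputable def v1 (τ : Finset α → Lab) (D : Finset α) (π : List α) (i : ℕ) : ℝ :=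
  if τ (pre π (kN τ π)) = Lab.A then (if an τ D π i = 0 then 0 else 1) else
    (pn τ π i : ℝ) * (((D.card : ℝ) - kN τ π) - on τ D π i) + on τ D π i

theorem v1_le {τ : Finset α → Lab} {D : Finset α} {π : List α}
    (h : τ (pre π (kN τ π)) = Lab.A) (i : ℕ) : v1 τ D π i = vv τ D π i := by
  unfold v1 vv
  rw [if_pos h, if_pos h]

theorem v1_lv {τ : Finset α → Lab} {D : Finset α} {π : List α}
    (h : τ (pre π (kN τ π)) ≠ Lab.A) (i : ℕ) :
    v1 τ D π i = (pn τ π i : ℝ) * (((D.card : ℝ) - kN τ π) - on τ D π i) + on τ D π i := by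
  unfold v1
  rw [if_neg h]

/-- the level lemma on the paths with a vertex at `V_K`, exact form -/
theorem level_lv {τ : Finset α → Lab} {D : Finset α} (h0 : τ ∅ = Lab.A) (hD : τ D = Lab.B)
    (L : Finset α) (hL : ∀ x ∈ D, (x ∈ L ↔ τ {x} = Lab.B)) (hLl : L.card ≤ D.card)
    {π : List α} (hπ : π ∈ seqs D.card D) (i : ℕ) (hle : τ (pre π (kN τ π)) ≠ Lab.A) :
    (pn τ π i : ℝ) * (((D.card : ℝ) - kN τ π) - on τ D π i) * lamn D.card ≤
      (pn τ π i : ℝ) * Lam (kN τ π) D.card - gg D.card (an τ D π i) +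
        gg (kN τ π) (pn τ π i) + gL τ D L π := by
  have h0' : τ ∅ ≠ Lab.B := by rw [h0]; decide
  have hN := kN_lt h0' hD hπ
  have h1 := pn_le_kN h0 hD hπ i
  have h2 := pn_le_an (τ := τ) hπ i
  have h3 := out_le h0 hD hπ i
  have h5 := rs_eq h1 hN.le
  set l := D.card with hl
  set K := kN τ π with hK
  set p := pn τ π i with hp
  set o := an τ D π i - pn τ π i with ho
  have e1 : an τ D π i = o + p := by omega
  have e2 : on τ D π i = (o : ℝ) := by
    rw [ho, Nat.cast_sub h2]
    rfl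
  have hUD := U0_subset (τ := τ) hπ
  set b := L.card with hb
  set J := (L ∩ D).card with hJd
  set pN := (L ∩ U0 τ π).card with hpN
  have eb : (L \ U0 τ π).card = b - pN := by
    have := card_sdiff_add_card_inter L (U0 τ π)
    omega
  have eJ : ((L \ U0 τ π) ∩ (D \ U0 τ π)).card = J - pN := by
    have e : (L \ U0 τ π) ∩ (D \ U0 τ π) = (L ∩ D) \ U0 τ π := by
      ext x
      simp only [mem_inter, mem_sdiff]
      tauto
    rw [e]
    have h := card_sdiff_add_card_inter (L ∩ D) (U0 τ π)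
    have e' : (L ∩ D) ∩ U0 τ π = L ∩ U0 τ π := by
      ext x
      simp only [mem_inter]
      constructor
      · rintro ⟨⟨h1, _⟩, h2⟩
        exact ⟨h1, h2⟩
      · rintro ⟨h1, h2⟩
        exact ⟨⟨h1, hUD h2⟩, h2⟩
    rw [e'] at h
    omega
  have eg : gL τ D L π = gg (b - pN) (J - pN) := by
    unfold gL
    rw [eb, eJ]
  have hJb : J ≤ b := card_le_card inter_subset_left
  have hAL : AL τ D (pre π i) ⊆ L ∩ D := by
    intro x hx
    unfold AL at hx
    rw [mem_filter, mem_sdiff] at hx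
    rw [mem_inter]
    exact ⟨(hL x hx.1.1).2 hx.2.1, hx.1.1⟩
  have hpin : (pre π K \ pre π i) ∩ AL τ D (pre π i) ⊆ L ∩ pre π K := by
    intro x hx
    rw [mem_inter, mem_sdiff] at hx
    rw [mem_inter]
    exact ⟨(mem_inter.1 (hAL hx.2)).1, hx.1.1⟩
  have hpe : p = ((pre π K \ pre π i) ∩ AL τ D (pre π i)).card := pn_eq hπ i
  have hoe : o = ((D \ pre π K) ∩ AL τ D (pre π i)).card := out_card hπ i
  have hU : U0 τ π = pre π K := by
    unfold U0
    rw [if_neg hle]
  have hpp : p ≤ pN := by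
    rw [hpe]
    apply card_le_card
    rw [hU]
    exact hpin
  have hoo : o + pN ≤ J := by
    have hdis : Disjoint ((D \ pre π K) ∩ AL τ D (pre π i)) (L ∩ U0 τ π) := by
      rw [disjoint_left]
      intro x hx hx'
      rw [mem_inter, mem_sdiff] at hx
      rw [mem_inter, hU] at hx'
      exact hx.1.2 hx'.2
    have hsub : ((D \ pre π K) ∩ AL τ D (pre π i)) ∪ (L ∩ U0 τ π) ⊆ L ∩ D := by
      intro x hx
      rw [mem_union] at hx
      rcases hx with hx | hx
      · exact hAL (mem_inter.1 hx).2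
      · rw [mem_inter] at hx ⊢
        exact ⟨hx.1, hUD hx.2⟩
    have h7 := card_le_card hsub
    rw [card_union_of_disjoint hdis, ← hoe] at h7
    exact h7
  have h8 := Lev.level_dead_lin (l := l) (K := K) (o := o) (p := p) (b := b) (J := J)
    (pN := pN) (h := l - K - o) (by omega) h1 hpp hoo hJb hLl
  rw [← lamn_def] at h8
  have hh : ((l - K - o : ℕ) : ℝ) = (l : ℝ) - K - o := by
    rw [Nat.cast_sub (by omega), Nat.cast_sub (by omega)]
  rw [hh] at h8
  rw [e1, e2, eg]
  linarith

/-- **the level lemma**, exact vertex form -/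
theorem hW1 {τ : Finset α → Lab} {D : Finset α} (h0 : τ ∅ = Lab.A) (hD : τ D = Lab.B)
    (L : Finset α) (hL : ∀ x ∈ D, (x ∈ L ↔ τ {x} = Lab.B)) (hLl : L.card ≤ D.card) :
    ∀ π ∈ seqs D.card D, ∀ i ≤ kA τ π, (v1 τ D π i - on τ D π i) * lamn D.card ≤
      (pn τ π i : ℝ) * Lam (kN τ π) D.card - gg D.card (an τ D π i) +
        gg (kN τ π) (pn τ π i) + gL τ D L π := by
  intro π hπ i hi
  by_cases hle : τ (pre π (kN τ π)) = Lab.A
  · rw [v1_le hle]
    exact hW_gain h0 hD L hL hLl π hπ i hi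
  · rw [v1_lv hle]
    have h := level_lv h0 hD L hL hLl hπ i hle
    refine le_trans (le_of_eq ?_) h
    ring

/-- **one side**, exact vertex form: the charges and gains against the path bound `LB` -/
theorem one_side_v1 {τ : Finset α → Lab} {D : Finset α} (h0 : τ ∅ = Lab.A) (hD : τ D = Lab.B)
    (L : Finset α) (hL : ∀ x ∈ D, (x ∈ L ↔ τ {x} = Lab.B)) (hLl : L.card ≤ D.card) :
    lamn D.card * Av D (LB τ D (v1 τ D)) ≤
      Av D (lowT0 τ D) + Av D (fun π => ((kA τ π : ℝ) + 1) * gL τ D L π) := by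
  have h1 := one_side h0 hD (gL τ D L) (v1 τ D) (hW1 h0 hD L hL hLl)
  refine h1.trans (le_of_eq ?_)
  rw [← Av_add]
  refine Av_congr fun π _ => ?_
  rw [← TP_zero]
  unfold TP
  ring

end Two

end R5
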